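import Mathlib
import Pool.Agent.Y353.SU.Loc
import Pool.Agent.TH194.BL.Fin1

/-!
Project QO (helper353): relations between monomials in elements of a ring, the covering of the exceptional set.
-/

set_option autoImplicit false

namespace Pool.Agent.Y353.QO

open Finset
open Pool.Agent.TH194.BL (Cube S_LSK pow_mod_lam)

variable {O : Type} [CommRing O]

/-- `a` is a product of powers of elements of `E` -/
def Gen (E : Finset O) (a : O) : Prop := ∃ f : O → ℕ, a = ∏ s ∈ E, s ^ f s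

/-- Modulo every large prime `t ≡ 1 mod f` there is a homomorphism to `ZMod t` which does not vanish on `E` and
turns `B` into a bijection. -/
def Red (n : ℕ) (E : Finset O) (B : (Fin n → ℕ) → Fin n → O) (T f : ℕ) : Prop :=
  ∀ t : ℕ, t.Prime → T ≤ t → f ∣ t - 1 →
    ∃ (φ : O →+* ZMod t) (e : (Fin n → ZMod t) ≃ (Fin n → ZMod t)),
    (∀ s ∈ E, φ s ≠ 0) ∧ ∀ X : Fin n → ℕ, (fun i => φ (B X i)) = e (fun i => (X i : ZMod t))

/-- The `X` with a relation `a ∏ B_i(X) ^ x_i + b ∏ B_i(X) ^ y_i = c w ^ q`, where `a`, `b` are products of powers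
of elements of `E`, `c` is a product of powers of elements of `E'` and no number larger than `G` divides all the
`y_i - x_i`. -/
def RelO (n q : ℕ) (E E' : Finset O) (B : (Fin n → ℕ) → Fin n → O) (G : ℕ) : Set (Fin n → ℕ) :=
  {X | ∃ (x y : Fin n → ℕ) (a b c w : O), Gen E a ∧ Gen E b ∧ Gen E' c ∧
    (∀ r : ℕ, (∀ i, (r : ℤ) ∣ (y i : ℤ) - x i) → r ≤ G) ∧
    a * ∏ i, B X i ^ x i + b * ∏ i, B X i ^ y i = c * w ^ q}

theorem dvd_mod {lam r x y : ℕ} (hr : r ∣ lam) (h : (r : ℤ) ∣ ((y % lam : ℕ) : ℤ) - ((x % lam : ℕ) : ℤ)) :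
    (r : ℤ) ∣ (y : ℤ) - x := by
  have e1 : ((y % lam : ℕ) : ℤ) - ((x % lam : ℕ) : ℤ) =
      ((y : ℤ) - x) - (lam : ℤ) * ((y / lam : ℕ) - (x / lam : ℕ)) := by
    have h1 := Nat.mod_add_div y lam
    have h2 := Nat.mod_add_div x lam
    have h1' : ((y % lam : ℕ) : ℤ) + (lam : ℤ) * ((y / lam : ℕ) : ℤ) = (y : ℤ) := by
      exact_mod_cast h1
    have h2' : ((x % lam : ℕ) : ℤ) + (lam : ℤ) * ((x / lam : ℕ) : ℤ) = (x : ℤ) := by
      exact_mod_cast h2
    linarith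
  rw [e1] at h
  have e2 : (r : ℤ) ∣ (lam : ℤ) * ((y / lam : ℕ) - (x / lam : ℕ)) :=
    Dvd.dvd.mul_right (Int.natCast_dvd_natCast.mpr hr) _
  exact (dvd_sub_left e2).mp h

open Classical in
/-- the local sets -/
theorem exists_loc {n q G lam T f : ℕ} (hq : q.Prime) {E E' : Finset O} {B : (Fin n → ℕ) → Fin n → O}
    (hB : Red n E B T f) {t : ℕ} (ht : t.Prime) (hT : T ≤ t) (hf : f ∣ t - 1) (htl : t - 1 ∣ lam)
    (hqt : q ∣ t - 1) (htk : 16 * (n + G + 1) ^ 2 ≤ t)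
    (ix iy : Fin n → ℕ) (ea eb : E → ℕ) (ec : E' → ℕ) :
    ∃ Ω : Finset (Fin n → ZMod t),
      ((∀ r : ℕ, r ∣ t - 1 → (∀ i, (r : ℤ) ∣ (iy i : ℤ) - ix i) → r ≤ G) →
        (Ω.card : ℝ) ≤ 3 / 4 * (t : ℝ) ^ n) ∧
      ∀ (X x y : Fin n → ℕ) (fa fb fc : O → ℕ) (w : O), (∀ l, x l % lam = ix l) → (∀ l, y l % lam = iy l) →
        (∀ s : E, fa s % lam = ea s) → (∀ s : E, fb s % lam = eb s) → (∀ s : E', fc s % q = ec s) →
        (∏ s ∈ E, s ^ fa s) * ∏ i, B X i ^ x i + (∏ s ∈ E, s ^ fb s) * ∏ i, B X i ^ y i =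
          (∏ s ∈ E', s ^ fc s) * w ^ q →
        (fun i => (X i : ZMod t)) ∈ Ω := by
  have : Fact t.Prime := ⟨ht⟩
  obtain ⟨φ, e, h1, h2⟩ := hB t ht hT hf
  set α : ZMod t := ∏ s : E, φ s ^ ea s with hα
  set β : ZMod t := ∏ s : E, φ s ^ eb s with hβ
  set γ : ZMod t := ∏ s : E', φ s ^ ec s with hγ
  have hα0 : α ≠ 0 := by
    rw [hα, Finset.prod_ne_zero_iff]
    intro s _
    exact pow_ne_zero _ (h1 s s.2)
  have hβ0 : β ≠ 0 := by
    rw [hβ, Finset.prod_ne_zero_iff]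
    intro s _
    exact pow_ne_zero _ (h1 s s.2)
  refine ⟨((univ : Finset (Fin n → ZMod t)).filter (fun A => (∃ i, A i = 0) ∨
      ∃ z, α * ∏ i, A i ^ ix i + β * ∏ i, A i ^ iy i = γ * z ^ q)).map e.symm.toEmbedding, ?_, ?_⟩
  · intro hr
    rw [card_map]
    have h := Pool.Agent.Y353.SU.locR G n q t hq hqt htk ix iy α β γ hα0 hβ0 hr
    refine le_trans (le_of_eq ?_) h
    congr!
  · intro X x y fa fb fc w hx hy ha hb hc heq
    rw [Finset.mem_map_equiv, Equiv.symm_symm, ← h2, mem_filter]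
    refine ⟨mem_univ _, ?_⟩
    by_cases h0 : ∃ i, φ (B X i) = 0
    · left; exact h0
    · right
      push Not at h0
      refine ⟨(∏ s : E', φ s ^ (fc s / q)) * φ w, ?_⟩
      have h3 := congrArg φ heq
      rw [map_add, map_mul, map_mul, map_mul, map_prod, map_prod, map_prod, map_prod, map_prod, map_pow] at h3
      simp only [map_pow] at h3
      have e1 : ∏ i, φ (B X i) ^ ix i = ∏ i, φ (B X i) ^ x i := by
        apply prod_congr rfl
        intro i _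
        rw [← hx i]
        exact pow_mod_lam htl (h0 i) _
      have e2 : ∏ i, φ (B X i) ^ iy i = ∏ i, φ (B X i) ^ y i := by
        apply prod_congr rfl
        intro i _
        rw [← hy i]
        exact pow_mod_lam htl (h0 i) _
      have e3 : α = ∏ s ∈ E, φ s ^ fa s := by
        rw [hα, ← Finset.prod_coe_sort E (fun s => φ s ^ fa s)]
        apply prod_congr rfl
        intro s _
        rw [← ha s]
        exact pow_mod_lam htl (h1 s s.2) _
      have e4 : β = ∏ s ∈ E, φ s ^ fb s := by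
        rw [hβ, ← Finset.prod_coe_sort E (fun s => φ s ^ fb s)]
        apply prod_congr rfl
        intro s _
        rw [← hb s]
        exact pow_mod_lam htl (h1 s s.2) _
      have e5 : γ * (∏ s : E', φ s ^ (fc s / q)) ^ q = ∏ s ∈ E', φ s ^ fc s := by
        rw [hγ, ← Finset.prod_coe_sort E' (fun s => φ s ^ fc s), ← Finset.prod_pow, ← Finset.prod_mul_distrib]
        apply prod_congr rfl
        intro s _
        rw [← hc s, ← pow_mul, ← pow_add]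
        congr 1
        exact Nat.mod_add_div' _ _
      rw [e1, e2, e3, e4, h3, ← e5, mul_pow]
      ring

open Classical in
/-- **Covering.** -/
theorem card_relO_le (hlsk : S_LSK) {n q G T f : ℕ} (hq : q.Prime) {E E' : Finset O}
    {B : (Fin n → ℕ) → Fin n → O} (hB : Red n E B T f)
    {lam N Q j : ℕ} (a₀ : Fin n → ℕ) {P : Finset ℕ}
    (hN : 1 ≤ N) (hQ : Q ^ 2 ≤ N) (hP : ∀ t ∈ P, t.Prime) (hPl : ∀ t ∈ P, t - 1 ∣ lam)
    (hPq : ∀ t ∈ P, q ∣ t - 1) (hPT : ∀ t ∈ P, T ≤ t) (hPf : ∀ t ∈ P, f ∣ t - 1)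
    (hPk : ∀ t ∈ P, 16 * (n + G + 1) ^ 2 ≤ t)
    (hj : ∀ D ∈ P.powersetCard j, ∏ t ∈ D, t ≤ Q) (hjP : j ≤ P.card)
    (hlam : 0 < lam) :
    (((Cube a₀ N).filter (fun A => A ∈ RelO n q E E' B G)).card : ℝ) ≤
      (lam : ℝ) ^ (2 * n + 2 * E.card) * (q : ℝ) ^ E'.card *
        ((12 * (N : ℝ)) ^ n / ((P.card.choose j : ℝ) / 3 ^ j)) := by
  have : NeZero lam := ⟨hlam.ne'⟩
  have hq0 : 0 < q := hq.pos
  set L : ℝ := (P.card.choose j : ℝ) / 3 ^ j with hL
  have hLpos : 0 < L := by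
    have : 0 < P.card.choose j := Nat.choose_pos hjP
    positivity
  set I := ((Fin n → Fin lam) × (Fin n → Fin lam)) × ((E → Fin lam) × (E → Fin lam)) × (E' → Fin q) with hI
  have key : ∀ (i : I) (t : ℕ), ∃ Ω : Finset (Fin n → ZMod t), t ∈ P →
      ((∀ r : ℕ, r ∣ t - 1 → (∀ l, (r : ℤ) ∣ (((i.1.2 l : Fin lam) : ℕ) : ℤ) -
        (((i.1.1 l : Fin lam) : ℕ) : ℤ)) → r ≤ G) →
        (Ω.card : ℝ) ≤ 3 / 4 * (t : ℝ) ^ n) ∧
      ∀ (X x y : Fin n → ℕ) (fa fb fc : O → ℕ) (w : O),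
        (∀ l, x l % lam = ((i.1.1 l : Fin lam) : ℕ)) → (∀ l, y l % lam = ((i.1.2 l : Fin lam) : ℕ)) →
        (∀ s : E, fa s % lam = ((i.2.1.1 s : Fin lam) : ℕ)) →
        (∀ s : E, fb s % lam = ((i.2.1.2 s : Fin lam) : ℕ)) →
        (∀ s : E', fc s % q = ((i.2.2 s : Fin q) : ℕ)) →
        (∏ s ∈ E, s ^ fa s) * ∏ i, B X i ^ x i + (∏ s ∈ E, s ^ fb s) * ∏ i, B X i ^ y i =
          (∏ s ∈ E', s ^ fc s) * w ^ q →
        (fun i => (X i : ZMod t)) ∈ Ω := by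
    intro i t
    by_cases ht : t ∈ P
    · obtain ⟨Ω, h1, h2⟩ := exists_loc (G := G) hq hB (hP t ht) (hPT t ht) (hPf t ht) (hPl t ht) (hPq t ht)
        (hPk t ht) (fun l => ((i.1.1 l : Fin lam) : ℕ)) (fun l => ((i.1.2 l : Fin lam) : ℕ))
        (fun s => ((i.2.1.1 s : Fin lam) : ℕ)) (fun s => ((i.2.1.2 s : Fin lam) : ℕ))
        (fun s => ((i.2.2 s : Fin q) : ℕ))
      exact ⟨Ω, fun _ => ⟨h1, h2⟩⟩
    · exact ⟨∅, fun h => absurd h ht⟩
  choose Ω hΩ using key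
  let good : I → Prop := fun i => ∀ t ∈ P, ∀ r : ℕ, r ∣ t - 1 →
    (∀ l, (r : ℤ) ∣ (((i.1.2 l : Fin lam) : ℕ) : ℤ) - (((i.1.1 l : Fin lam) : ℕ) : ℤ)) → r ≤ G
  let ZI : I → Finset (Fin n → ℕ) := fun i =>
    (Cube a₀ N).filter (fun X => ∀ t ∈ P, (fun l => ((X l : ℕ) : ZMod t)) ∈ Ω i t)
  have hsub : (Cube a₀ N).filter (fun A => A ∈ RelO n q E E' B G) ⊆
      ((univ : Finset I).filter good).biUnion ZI := by
    intro X hX
    rw [mem_filter] at hX
    obtain ⟨hXc, x, y, a, b, c, w, ⟨fa, ha⟩, ⟨fb, hb⟩, ⟨fc, hc⟩, hg, heq⟩ := hX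
    rw [mem_biUnion]
    refine ⟨(((fun l => ⟨x l % lam, Nat.mod_lt _ hlam⟩), (fun l => ⟨y l % lam, Nat.mod_lt _ hlam⟩)),
      ((fun s => ⟨fa s % lam, Nat.mod_lt _ hlam⟩),
        (fun s => ⟨fb s % lam, Nat.mod_lt _ hlam⟩)),
      (fun s => ⟨fc s % q, Nat.mod_lt _ hq0⟩)), ?_, ?_⟩
    · rw [mem_filter]
      refine ⟨mem_univ _, ?_⟩
      intro t ht r hr hdiv
      apply hg r
      intro l
      exact dvd_mod (hr.trans (hPl t ht)) (hdiv l)
    · show X ∈ (Cube a₀ N).filter (fun X => ∀ t ∈ P, (fun l => ((X l : ℕ) : ZMod t)) ∈ Ω _ t)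
      rw [mem_filter]
      refine ⟨hXc, fun t ht => ?_⟩
      refine (hΩ _ t ht).2 X x y fa fb fc w (fun _ => rfl) (fun _ => rfl) (fun _ => rfl) (fun _ => rfl)
        (fun _ => rfl) ?_
      rw [← ha, ← hb, ← hc]
      exact heq
  have hZ : ∀ i ∈ (univ : Finset I).filter good, ((ZI i).card : ℝ) ≤ (12 * (N : ℝ)) ^ n / L := by
    intro i hi
    rw [mem_filter] at hi
    rw [le_div_iff₀ hLpos]
    refine hlsk n N Q j a₀ P (ZI i) (Ω i) hN hQ hP ?_ ?_ ?_ hj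
    · intro z hz l
      simp only [ZI] at hz
      rw [mem_filter, Cube, Fintype.mem_piFinset] at hz
      exact hz.1 l
    · intro t ht
      exact (hΩ i t ht).1 (hi.2 t ht)
    · intro z hz t ht
      simp only [ZI] at hz
      rw [mem_filter] at hz
      exact hz.2 t ht
  have hcard : (Fintype.card I : ℝ) = (lam : ℝ) ^ (2 * n + 2 * E.card) * (q : ℝ) ^ E'.card := by
    simp only [hI, Fintype.card_prod, Fintype.card_fun, Fintype.card_fin, Fintype.card_coe]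
    push_cast
    ring
  calc (((Cube a₀ N).filter (fun A => A ∈ RelO n q E E' B G)).card : ℝ)
      ≤ ((((univ : Finset I).filter good).biUnion ZI).card : ℝ) := by
        exact_mod_cast card_le_card hsub
    _ ≤ ∑ i ∈ (univ : Finset I).filter good, ((ZI i).card : ℝ) := by
        exact_mod_cast card_biUnion_le
    _ ≤ ∑ i ∈ (univ : Finset I).filter good, (12 * (N : ℝ)) ^ n / L := sum_le_sum hZ
    _ = (((univ : Finset I).filter good).card : ℝ) * ((12 * (N : ℝ)) ^ n / L) := by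
        rw [sum_const, nsmul_eq_mul]
    _ ≤ (Fintype.card I : ℝ) * ((12 * (N : ℝ)) ^ n / L) := by
        apply mul_le_mul_of_nonneg_right _ (by positivity)
        exact_mod_cast card_le_univ _
    _ = _ := by rw [hcard]

end Pool.Agent.Y353.QO
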