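import Mathlib
import Pool.Agent.Y353.QO.Cov
import Pool.Agent.Y353.QO.Sup2
import Pool.Agent.Y353.SM.One

/-!
Project QO (helper353): power saving for relations between monomials in elements of a ring, one prime exponent,
one cube.
-/

set_option autoImplicit false

namespace Pool.Agent.Y353.QO

open Finset Filter Topology
open Pool.Agent.TH194.BL Pool.Agent.Y353.PS Pool.Agent.Y353.SU
open Pool.Agent.Y353.SM (ExtM ev_extM)

/-- one prime exponent `q ≤ (log N) ^ B`, one cube -/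
theorem one_qO : ∃ K : ℕ, 1 ≤ K ∧ ∀ k B f T : ℕ, 0 < f → ∃ N₀ : ℕ, ∀ N : ℕ, N₀ ≤ N → ∀ q : ℕ, q.Prime →
    (q : ℝ) ≤ Real.log N ^ B → ∀ (O : Type) [CommRing O] (S₁ S₂ : Finset O) (Bm : (Fin k → ℕ) → Fin k → O),
    (S₁.card : ℝ) ≤ Real.log N ^ (1 / 25 : ℝ) → (S₂.card : ℝ) ≤ Real.log N ^ (9 / 10 : ℝ) →
    Red k S₁ Bm (max T (GG (Real.log N) + 1)) f →
    ∀ a : Fin k → ℕ, ∀ E : Finset (Fin k → ℕ),
    (∀ A ∈ E, A ∈ Cube a N ∧ A ∈ RelO k q S₁ S₂ Bm (GG (Real.log N))) →
    (E.card : ℝ) ≤ (N : ℝ) ^ ((k : ℝ) - 1 / (500 * K)) := by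
  classical
  obtain ⟨K, hK, hsup⟩ := supplyF page
  refine ⟨K, hK, fun k B f T hf => ?_⟩
  obtain ⟨m, hm⟩ : ∃ m : ℕ, m = 2 := ⟨2, rfl⟩
  obtain ⟨z₀, hz₀⟩ := hsup (3 * B + 1)
  have hev := (Real.tendsto_log_atTop.comp tendsto_natCast_atTop_atTop).eventually
    (((ev_par' k B K (max (max z₀ T) 2) hK).and (ev_extM k m B K hK)).and
      (Real.tendsto_sqrt_atTop.eventually_ge_atTop ((f : ℝ) + 1)))
  obtain ⟨N₀, hN₀⟩ := eventually_atTop.1 hev
  refine ⟨max N₀ 1, fun N hN q hq hqB O _ S₁ S₂ Bm hS1c hS2c hRed a E hE => ?_⟩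
  have hN1 : 1 ≤ N := (le_max_right _ _).trans hN
  obtain ⟨z, hz⟩ : ∃ z : ℕ, z = ⌊Real.exp (√(Real.log N))⌋₊ := ⟨_, rfl⟩
  have hp : Par' k B K (max (max z₀ T) 2) (Real.log N) z := by
    rw [hz]; exact (hN₀ N ((le_max_left _ _).trans hN)).1.1
  have hx : ExtM k m B K (Real.log N) z := by
    rw [hz]; exact (hN₀ N ((le_max_left _ _).trans hN)).1.2
  have hfL : (f : ℝ) + 1 ≤ √(Real.log N) := (hN₀ N ((le_max_left _ _).trans hN)).2
  have hKR : (1 : ℝ) ≤ K := by exact_mod_cast hK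
  set L := Real.log N with hL
  have hNR : (0 : ℝ) < N := by exact_mod_cast hN1
  have hNexp : (N : ℝ) = Real.exp L := (Real.exp_log hNR).symm
  have hL0 : 0 < L := by linarith [hp.l1]
  have hsL : √L * √L = L := Real.mul_self_sqrt hL0.le
  have hz2 : 2 ≤ z := (le_max_right _ _).trans hp.z0
  have hzR : (0 : ℝ) < z := by exact_mod_cast (by omega : 0 < z)
  have hlogz : Real.log z ≤ √L := by
    have := Real.log_le_log hzR hp.zle
    rwa [Real.log_exp] at this
  have hzz : z₀ ≤ z ∧ T ≤ z := by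
    have := hp.z0
    simp only [max_le_iff] at this
    exact this.1
  obtain ⟨P, lam, p1, p2, p4, p5⟩ := hz₀ z hzz.1 (f * q) (Nat.mul_pos hf hq.pos) (by
    have h1 : (f : ℝ) ≤ Real.log z := by linarith [hp.zge]
    have h2 : (q : ℝ) ≤ Real.log z ^ (3 * B) := hqB.trans hp.qz
    have h3 := hp.l0
    push_cast
    calc (f : ℝ) * q ≤ Real.log z * Real.log z ^ (3 * B) :=
          mul_le_mul h1 h2 (Nat.cast_nonneg q) (by linarith)
      _ = Real.log z ^ (3 * B + 1) := by rw [pow_succ]; ring)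
  -- j and Q
  set j := ⌊√L / (2 * K)⌋₊ with hj
  have hjle : (j : ℝ) ≤ √L / (2 * K) := Nat.floor_le (by positivity)
  have hjge : √L / (2 * K) - 1 ≤ (j : ℝ) := by
    have := Nat.lt_floor_add_one (√L / (2 * K)); linarith
  have hjL : (j : ℝ) ≤ √L := hjle.trans (div_le_self (Real.sqrt_nonneg _) (by linarith))
  have hjK : (j : ℝ) * (2 * K) ≤ √L := by
    rwa [le_div_iff₀ (by positivity)] at hjle
  set Q := Nat.sqrt N with hQ
  have hQ2 : Q ^ 2 ≤ N := by rw [sq]; exact Nat.sqrt_le N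
  have hprod : ∀ D ∈ P.powersetCard j, ∏ t ∈ D, t ≤ Q := by
    intro D hD
    rw [mem_powersetCard] at hD
    rw [hQ, Nat.le_sqrt, ← sq]
    have h1 : ∏ t ∈ D, t ≤ z ^ (K * j) := by
      calc ∏ t ∈ D, t ≤ ∏ t ∈ D, z ^ K := prod_le_prod' fun t ht => (p1 t (hD.1 ht)).2.2.1
        _ = z ^ (K * j) := by rw [prod_const, hD.2, pow_mul]
    have h2 : ((z ^ (K * j)) ^ 2 : ℕ) ≤ N := by
      have h3 : (((z ^ (K * j)) ^ 2 : ℕ) : ℝ) ≤ N := by
        rw [← Real.log_le_log_iff (by positivity) hNR]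
        push_cast
        rw [Real.log_pow, Real.log_pow, ← hL]
        push_cast
        calc (2 : ℝ) * (K * j * Real.log z) = (j * (2 * K)) * Real.log z := by ring
          _ ≤ √L * √L := mul_le_mul hjK hlogz (by linarith [hp.l0]) (Real.sqrt_nonneg _)
          _ = L := hsL
      exact_mod_cast h3
    exact (Nat.pow_le_pow_left h1 2).trans h2
  have hPc : (z : ℝ) ^ (1 / 100 : ℝ) ≤ (P.card : ℝ) := p5
  have hjP : 2 * j ≤ P.card := by
    have : ((2 * j : ℕ) : ℝ) ≤ P.card := by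
      push_cast
      have := hp.jz2
      linarith
    exact_mod_cast this
  -- the covering
  have hcov := card_relO_le (lsk add low) (n := k) hq (G := GG L) hRed (E' := S₂) (lam := lam) (N := N) (Q := Q)
    (j := j) a (P := P) hN1 hQ2
    (fun t ht => (p1 t ht).1)
    (fun t ht => (p1 t ht).2.2.2.1) (fun t ht => (Dvd.intro_left _ rfl).trans (p1 t ht).2.2.2.2)
    (fun t ht => by
      have h1 := hx.zk
      have h2 := (p1 t ht).2.1
      have h4 : k + GG L + 1 ≤ (k + GG L + 1) ^ 2 := Nat.le_self_pow two_ne_zero _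
      have h5 := hzz.2
      exact max_le (by omega) (by omega))
    (fun t ht => (Dvd.intro _ rfl).trans (p1 t ht).2.2.2.2)
    (fun t ht => hx.zk.trans (p1 t ht).2.1.le) hprod (by omega) p2
  have hEle : (E.card : ℝ) ≤ (((Cube a N).filter (fun A => A ∈ RelO k q S₁ S₂ Bm (GG L))).card : ℝ) := by
    have : E ⊆ (Cube a N).filter (fun A => A ∈ RelO k q S₁ S₂ Bm (GG L)) := by
      intro A hA
      rw [mem_filter]
      exact hE A hA
    exact_mod_cast card_le_card this
  refine hEle.trans (hcov.trans ?_)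
  -- logarithms
  have hch := choose_lower' hjP
  have hqR : (0 : ℝ) < q := by exact_mod_cast hq.pos
  have hlamR : (0 : ℝ) < lam := by exact_mod_cast p2
  have hlq : Real.log q ≤ B * Real.log L := by
    have := Real.log_le_log hqR hqB
    rwa [Real.log_pow] at this
  have hlq0 : 0 ≤ Real.log q := Real.log_natCast_nonneg q
  have hllam : Real.log lam ≤ L ^ (19 / 20 : ℝ) / 2 := by
    refine p4.trans ?_
    have h1 : Real.log z ^ (19 / 10 : ℝ) ≤ √L ^ (19 / 10 : ℝ) :=
      Real.rpow_le_rpow (by linarith [hp.l0]) hlogz (by norm_num)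
    have h2 : √L ^ (19 / 10 : ℝ) = L ^ (19 / 20 : ℝ) := by
      rw [Real.sqrt_eq_rpow, ← Real.rpow_mul hL0.le]; norm_num
    rw [h2] at h1
    linarith
  have hden : Real.exp (Real.log z / 200 * j) ≤ (P.card.choose j : ℝ) / 3 ^ j := by
    have h1 : Real.exp (Real.log z / 200 * j) = ((z : ℝ) ^ (1 / 200 : ℝ)) ^ j := by
      rw [Real.rpow_def_of_pos hzR, ← Real.exp_nat_mul]
      congr 1; ring
    rw [h1, le_div_iff₀ (by positivity), ← mul_pow]
    refine le_trans ?_ hch
    rcases Nat.eq_zero_or_pos j with h0 | h0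
    · rw [h0]; simp
    · apply pow_le_pow_left₀ (by positivity)
      have hj0 : (0 : ℝ) < j := by exact_mod_cast h0
      rw [le_div_iff₀ (by positivity)]
      calc (z : ℝ) ^ (1 / 200 : ℝ) * 3 * (2 * j) = (z : ℝ) ^ (1 / 200 : ℝ) * (6 * j) := by ring
        _ ≤ (z : ℝ) ^ (1 / 200 : ℝ) * (z : ℝ) ^ (1 / 200 : ℝ) := by
            apply mul_le_mul_of_nonneg_left _ (by positivity)
            have := hp.jz
            linarith
        _ = (z : ℝ) ^ (1 / 100 : ℝ) := by rw [← Real.rpow_add hzR]; norm_num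
        _ ≤ P.card := hPc
  have hlow : L / (400 * K) - √L ≤ Real.log z / 200 * j := by
    have a1 : (√L - 1) / 200 * (√L / (2 * K) - 1) ≤ Real.log z / 200 * j := by
      rcases le_total 0 (√L / (2 * K) - 1) with h0 | h0
      · apply mul_le_mul _ hjge h0 (by linarith [hp.l0])
        have := hp.zge
        linarith
      · have h1 : 0 ≤ Real.log z / 200 * j := by
          have := hp.l0
          positivity
        have h2 : 0 ≤ (√L - 1) / 200 := by
          have : 1 ≤ √L := by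
            rw [Real.one_le_sqrt]; exact hp.l1
          linarith
        nlinarith
    have a2 : (√L - 1) / 200 * (√L / (2 * K) - 1) =
        L / (400 * K) - (√L / 200 + √L / (400 * K) - 1 / 200) := by
      have hid : ∀ s Kr : ℝ, Kr ≠ 0 → (s - 1) / 200 * (s / (2 * Kr) - 1) =
          s * s / (400 * Kr) - (s / 200 + s / (400 * Kr) - 1 / 200) := by
        intro s Kr hKr
        field_simp
        ring
      have h1 := hid (√L) K (by positivity)
      rwa [hsL] at h1
    have a3 : √L / (400 * K) ≤ √L / 400 := by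
      apply div_le_div_of_nonneg_left (Real.sqrt_nonneg _) (by norm_num)
      linarith
    have a4 : 0 ≤ √L := Real.sqrt_nonneg _
    linarith
  have hfinal : (lam : ℝ) ^ (2 * k + 2 * S₁.card) * (q : ℝ) ^ S₂.card *
      ((12 * (N : ℝ)) ^ k / ((P.card.choose j : ℝ) / 3 ^ j)) ≤
      Real.exp (Real.log 2 * (m + 1) + m * ((k + L ^ (1 / 25 : ℝ)) * L ^ (19 / 20 : ℝ)) +
        B * Real.log L * L ^ (9 / 10 : ℝ) +
        (k * Real.log 12 + k * L) - (L / (400 * K) - √L)) := by
    have b1 : (lam : ℝ) ^ (2 * k + 2 * S₁.card) ≤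
        Real.exp (m * ((k + L ^ (1 / 25 : ℝ)) * L ^ (19 / 20 : ℝ))) := by
      rw [← Real.log_le_iff_le_exp (by positivity), Real.log_pow, ← mul_add, hm]
      push_cast
      have e1 := Nat.cast_nonneg (α := ℝ) k
      have e2 := Nat.cast_nonneg (α := ℝ) S₁.card
      have e3 : (0 : ℝ) ≤ k + S₁.card := by linarith
      have e4 : 0 ≤ L ^ (19 / 20 : ℝ) := by positivity
      rw [mul_assoc]
      apply mul_le_mul_of_nonneg_left _ (by norm_num)
      calc ((k : ℝ) + S₁.card) * Real.log lam ≤ (k + S₁.card) * (L ^ (19 / 20 : ℝ) / 2) :=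
            mul_le_mul_of_nonneg_left hllam e3
        _ ≤ (k + S₁.card) * L ^ (19 / 20 : ℝ) := mul_le_mul_of_nonneg_left (by linarith) e3
        _ ≤ _ := mul_le_mul_of_nonneg_right (by linarith) e4
    have b2 : (q : ℝ) ^ S₂.card ≤ Real.exp (B * Real.log L * L ^ (9 / 10 : ℝ)) := by
      rw [← Real.log_le_iff_le_exp (by positivity), Real.log_pow]
      calc (S₂.card : ℝ) * Real.log q ≤ L ^ (9 / 10 : ℝ) * Real.log q :=
            mul_le_mul_of_nonneg_right hS2c hlq0
        _ ≤ L ^ (9 / 10 : ℝ) * (B * Real.log L) :=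
            mul_le_mul_of_nonneg_left hlq (by positivity)
        _ = _ := by ring
    have b3 : (12 * (N : ℝ)) ^ k = Real.exp (k * Real.log 12 + k * L) := by
      rw [← mul_add, hL, ← Real.log_mul (by norm_num) hNR.ne', Real.exp_nat_mul,
        Real.exp_log (by positivity)]
    have b4 : (12 * (N : ℝ)) ^ k / ((P.card.choose j : ℝ) / 3 ^ j) ≤
        Real.exp (k * Real.log 12 + k * L) / Real.exp (L / (400 * K) - √L) := by
      rw [b3]
      apply div_le_div_of_nonneg_left (Real.exp_nonneg _) (Real.exp_pos _)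
      exact (Real.exp_le_exp.2 hlow).trans hden
    have b5 : (1 : ℝ) ≤ Real.exp (Real.log 2 * (m + 1)) := by
      apply Real.one_le_exp
      have := Real.log_pos (show (1 : ℝ) < 2 by norm_num)
      positivity
    rw [← Real.exp_sub] at b4
    calc (lam : ℝ) ^ (2 * k + 2 * S₁.card) * (q : ℝ) ^ S₂.card *
        ((12 * (N : ℝ)) ^ k / ((P.card.choose j : ℝ) / 3 ^ j)) =
        1 * (lam : ℝ) ^ (2 * k + 2 * S₁.card) * (q : ℝ) ^ S₂.card *
        ((12 * (N : ℝ)) ^ k / ((P.card.choose j : ℝ) / 3 ^ j)) := by rw [one_mul]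
      _ ≤
        Real.exp (Real.log 2 * (m + 1)) * Real.exp (m * ((k + L ^ (1 / 25 : ℝ)) * L ^ (19 / 20 : ℝ))) *
          Real.exp (B * Real.log L * L ^ (9 / 10 : ℝ)) *
          Real.exp (k * Real.log 12 + k * L - (L / (400 * K) - √L)) := by
          gcongr
      _ = _ := by
          rw [← Real.exp_add, ← Real.exp_add, ← Real.exp_add]
          congr 1; ring
  refine hfinal.trans ?_
  rw [hNexp, ← Real.exp_mul, Real.exp_le_exp]
  have hf := hx.fin
  have hk1 : L * ((k : ℝ) - 1 / (500 * K)) = k * L - 1 / (500 * K) * L := by ring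
  have hk2 : (1 / (400 * K) - 1 / (500 * K)) * L = L / (400 * K) - 1 / (500 * K) * L := by ring
  rw [hk1]
  rw [hk2] at hf
  linarith

end Pool.Agent.Y353.QO
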