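import Mathlib
import Pool.Agent.Y353.QO.Box

/-!
Project QO (helper353): power saving for relations between monomials in elements of a quadratic ring and their
conjugates.
-/

set_option autoImplicit false

namespace Pool.Agent.Y353.QO

open Finset Filter Topology
open Pool.Agent.Y353.SU (GG)

/-- the element with coordinates `A` in the basis `1, ω` -/
def el {O : Type} [CommRing O] (ω : O) (A : ℤ × ℤ) : O := (A.1 : O) + (A.2 : O) * ω

/-- the coordinates moved by `s` -/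
def mv {k : ℕ} (s : Fin k → ℤ × ℤ) (X : Fin (k + k) → ℕ) (j : Fin k) : ℤ × ℤ :=
  ((X (Fin.castAdd k j) : ℤ) + (s j).1, (X (Fin.natAdd k j) : ℤ) + (s j).2)

/-- the elements and their conjugates -/
def BB {O : Type} [CommRing O] (ω ω' : O) {k : ℕ} (s : Fin k → ℤ × ℤ) (X : Fin (k + k) → ℕ) : Fin (k + k) → O :=
  Fin.append (fun j => el ω (mv s X j)) (fun j => el ω' (mv s X j))

/-- the local map -/
def loc {t k : ℕ} (r r' : ZMod t) (s : Fin k → ℤ × ℤ) (Y : Fin (k + k) → ZMod t) : Fin (k + k) → ZMod t :=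
  Fin.append (fun j => (Y (Fin.castAdd k j) + (s j).1) + (Y (Fin.natAdd k j) + (s j).2) * r)
    (fun j => (Y (Fin.castAdd k j) + (s j).1) + (Y (Fin.natAdd k j) + (s j).2) * r')

theorem loc_inj {t k : ℕ} (ht : t.Prime) {r r' : ZMod t} (hr : r ≠ r') (s : Fin k → ℤ × ℤ) :
    Function.Injective (loc r r' s) := by
  have : Fact t.Prime := ⟨ht⟩
  intro Y Z hYZ
  have h1 : ∀ j : Fin k, Y (Fin.castAdd k j) = Z (Fin.castAdd k j) ∧ Y (Fin.natAdd k j) = Z (Fin.natAdd k j) := by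
    intro j
    have a1 := congrFun hYZ (Fin.castAdd k j)
    have a2 := congrFun hYZ (Fin.natAdd k j)
    unfold loc at a1 a2
    rw [Fin.append_left, Fin.append_left] at a1
    rw [Fin.append_right, Fin.append_right] at a2
    have a3 : (Y (Fin.natAdd k j) - Z (Fin.natAdd k j)) * (r - r') = 0 := by
      linear_combination a1 - a2
    rcases mul_eq_zero.1 a3 with a4 | a4
    · have a5 : Y (Fin.natAdd k j) = Z (Fin.natAdd k j) := sub_eq_zero.1 a4
      refine ⟨?_, a5⟩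
      rw [a5] at a1
      linear_combination a1
    · exact absurd (sub_eq_zero.1 a4) hr
  funext i
  refine Fin.addCases (fun j => (h1 j).1) (fun j => (h1 j).2) i

theorem red_quad {O : Type} [CommRing O] {ω ω' : O} {f T₀ T G : ℕ}
    (hsplit : ∀ t : ℕ, t.Prime → T₀ ≤ t → f ∣ t - 1 → ∃ φ : O →+* ZMod t, φ ω ≠ φ ω')
    {k : ℕ} (s : Fin k → ℤ × ℤ) {E : Finset O} (hT : T₀ ≤ T) (hG : G + 1 ≤ T)
    (hE : ∀ e ∈ E, ∃ (e' : O) (m : ℤ), e * e' = (m : O) ∧ m ≠ 0 ∧ |m| ≤ G) :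
    Red (k + k) E (BB ω ω' s) T f := by
  intro t ht hTt hft
  have : Fact t.Prime := ⟨ht⟩
  obtain ⟨φ, hφ⟩ := hsplit t ht (hT.trans hTt) hft
  refine ⟨φ, Equiv.ofBijective (loc (φ ω) (φ ω') s)
    (Finite.injective_iff_bijective.1 (loc_inj ht hφ s)), ?_, ?_⟩
  · intro e he h0
    obtain ⟨e', m, h1, h2, h3⟩ := hE e he
    have h4 := congrArg φ h1
    rw [map_mul, h0, zero_mul, map_intCast] at h4
    have h5 := (ZMod.intCast_zmod_eq_zero_iff_dvd m t).1 h4.symm
    have h6 := Int.le_of_dvd (abs_pos.2 h2) ((dvd_abs _ _).2 h5)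
    have h7 : (t : ℤ) ≤ G := h6.trans h3
    have h8 : t ≤ G := by exact_mod_cast h7
    omega
  · intro X
    rw [Equiv.ofBijective_apply]
    funext i
    refine Fin.addCases (fun j => ?_) (fun j => ?_) i
    · unfold BB loc
      rw [Fin.append_left, Fin.append_left]
      simp only [el, mv, map_add, map_mul, map_intCast]
      push_cast
      ring
    · unfold BB loc
      rw [Fin.append_right, Fin.append_right]
      simp only [el, mv, map_add, map_mul, map_intCast]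
      push_cast
      ring

/-- `A` satisfies a relation `a ∏ A_j ^ x_j A'_j ^ x'_j + b ∏ A_j ^ y_j A'_j ^ y'_j = c w ^ n`, where `A'_j` is the
conjugate of `A_j` -/
def RelQ {O : Type} [CommRing O] (ω ω' : O) {k : ℕ} (Y G : ℝ) (E E' : Finset O) (A : Fin k → ℤ × ℤ) : Prop :=
  ∃ (x x' y y' : Fin k → ℕ) (n : ℕ) (a b c w : O), Gen E a ∧ Gen E b ∧ Gen E' c ∧
    (∃ p : ℕ, p.Prime ∧ p ∣ n ∧ (p : ℝ) ≤ Y) ∧
    (∀ r : ℕ, (∀ j, (r : ℤ) ∣ (y j : ℤ) - x j ∧ (r : ℤ) ∣ (y' j : ℤ) - x' j) → (r : ℝ) ≤ G) ∧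
    a * ∏ j, (el ω (A j) ^ x j * el ω' (A j) ^ x' j) + b * ∏ j, (el ω (A j) ^ y j * el ω' (A j) ^ y' j) =
      c * w ^ n

theorem boxes : ∃ δ : ℝ, 0 < δ ∧ ∀ (O : Type) [CommRing O] (ω ω' : O) (f T₀ : ℕ), 0 < f →
    (∀ t : ℕ, t.Prime → T₀ ≤ t → f ∣ t - 1 → ∃ φ : O →+* ZMod t, φ ω ≠ φ ω') →
    ∀ k K : ℕ, ∃ N₀ : ℕ, ∀ N : ℕ, N₀ ≤ N → ∀ E E' : Finset O,
    (E.card : ℝ) ≤ Real.log N ^ (1 / 25 : ℝ) → (E'.card : ℝ) ≤ Real.log N ^ (9 / 10 : ℝ) →
    (∀ e ∈ E, ∃ (e' : O) (m : ℤ), e * e' = (m : O) ∧ m ≠ 0 ∧ (|m| : ℝ) ≤ Real.exp (√(Real.log N) / 3)) →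
    ∀ (s : Fin k → ℤ × ℤ) (M M' : Fin k → ℕ), (∀ j, N ≤ M j ∧ N ≤ M' j) →
    ∀ X : Finset (Fin k → ℤ × ℤ), (∀ A ∈ X, (∀ j, (s j).1 < (A j).1 ∧ (A j).1 ≤ (s j).1 + M j ∧
      (s j).2 < (A j).2 ∧ (A j).2 ≤ (s j).2 + M' j) ∧
      RelQ ω ω' (Real.log N ^ K) (Real.exp (√(Real.log N) / 3)) E E' A) →
    (X.card : ℝ) ≤ (N : ℝ) ^ (-δ) * ∏ j, ((M j : ℝ) * M' j) := by
  classical
  obtain ⟨δ, hδ, -, hmain⟩ := power_saving_ring
  refine ⟨δ, hδ, fun O _ ω ω' f T₀ hf hsplit k K => ?_⟩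
  obtain ⟨N₀, hN₀⟩ := hmain (k + k) K f T₀ hf
  refine ⟨N₀, fun N hN E E' hE hE' hm s M M' hM X hX => ?_⟩
  set G := GG (Real.log N) with hG
  have hred : Red (k + k) E (BB ω ω' s) (max T₀ (G + 1)) f := by
    refine red_quad (G := G) hsplit s (le_max_left _ _) (le_max_right _ _) ?_
    intro e he
    obtain ⟨e', m, h1, h2, h3⟩ := hm e he
    refine ⟨e', m, h1, h2, ?_⟩
    have h4 : ((m.natAbs : ℕ) : ℝ) ≤ Real.exp (√(Real.log N) / 3) := by
      rw [Nat.cast_natAbs]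
      push_cast
      exact h3
    have h5 : m.natAbs ≤ G := by
      rw [hG]
      exact Nat.le_floor h4
    rw [Int.abs_eq_natAbs]
    exact_mod_cast h5
  -- the map to natural coordinates
  let F : (Fin k → ℤ × ℤ) → (Fin (k + k) → ℕ) := fun A =>
    Fin.append (fun j => ((A j).1 - (s j).1).toNat) (fun j => ((A j).2 - (s j).2).toNat)
  have hF : ∀ A ∈ X, mv s (F A) = A := by
    intro A hA
    funext j
    obtain ⟨h1, h2, h3, h4⟩ := (hX A hA).1 j
    simp only [mv, F, Fin.append_left, Fin.append_right]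
    rw [Int.toNat_of_nonneg (by linarith), Int.toNat_of_nonneg (by linarith)]
    ext
    · simp
    · simp
  have hinj : Set.InjOn F X := by
    intro A hA A' hA' h
    rw [← hF A hA, ← hF A' hA', h]
  have h1 := hN₀ N hN O E E' (BB ω ω' s) hE hE' hred (fun _ => 0) (Fin.append M M')
    (fun i => Fin.addCases (fun j => by rw [Fin.append_left]; exact (hM j).1)
      (fun j => by rw [Fin.append_right]; exact (hM j).2) i) (X.image F) ?_
  · rw [card_image_of_injOn hinj] at h1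
    refine h1.trans (le_of_eq ?_)
    rw [Fin.prod_univ_add]
    simp only [Fin.append_left, Fin.append_right]
    rw [← prod_mul_distrib]
  · intro Z hZ
    rw [mem_image] at hZ
    obtain ⟨A, hA, rfl⟩ := hZ
    obtain ⟨hbox, x, x', y, y', n, a, b, c, w, ha, hb, hc, ⟨p, hp, hpn, hpY⟩, hr, heq⟩ := hX A hA
    have hcoord : ∀ i, 0 < F A i ∧ F A i ≤ 0 + Fin.append M M' i := by
      intro i
      refine Fin.addCases (motive := fun i => 0 < F A i ∧ F A i ≤ 0 + Fin.append M M' i)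
        (fun j => ?_) (fun j => ?_) i
      · obtain ⟨h1, h2, h3, h4⟩ := hbox j
        simp only [F, Fin.append_left]
        omega
      · obtain ⟨h1, h2, h3, h4⟩ := hbox j
        simp only [F, Fin.append_right]
        omega
    refine ⟨hcoord, p, hp, hpY, ?_⟩
    · obtain ⟨m, rfl⟩ := hpn
      refine ⟨Fin.append x x', Fin.append y y', a, b, c, w ^ m, ha, hb, hc, ?_, ?_⟩
      · intro r hdiv
        have h2 : (r : ℝ) ≤ Real.exp (√(Real.log N) / 3) := by
          apply hr r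
          intro j
          have a1 := hdiv (Fin.castAdd k j)
          have a2 := hdiv (Fin.natAdd k j)
          rw [Fin.append_left, Fin.append_left] at a1
          rw [Fin.append_right, Fin.append_right] at a2
          exact ⟨a1, a2⟩
        exact Nat.le_floor h2
      · have e1 : ∀ (u u' : Fin k → ℕ), ∏ i, BB ω ω' s (F A) i ^ Fin.append u u' i =
            ∏ j, (el ω (A j) ^ u j * el ω' (A j) ^ u' j) := by
          intro u u'
          rw [Fin.prod_univ_add]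
          unfold BB
          simp only [Fin.append_left, Fin.append_right, hF A hA]
          rw [← prod_mul_distrib]
        rw [e1, e1, heq, ← pow_mul, mul_comm m p]

end Pool.Agent.Y353.QO
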